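import Pool.Agent.helper90.IV.Spec

/-!
# MP_26dbae_co, row iv:SK: number of skeletons (from WP)
-/

set_option autoImplicit false

open scoped BigOperators

namespace Pool.Agent.helper38.IV

open Pool.Agent.IV Pool.Agent.helper23.TH Pool.Agent.KS

noncomputable section

open Classical

theorem mem_filt {α : Type} [Fintype α] {p : α → Prop} {i : DecidablePred p} {a : α} :
    a ∈ @Finset.filter α p i Finset.univ ↔ p a := by
  rw [Finset.mem_filter]
  exact ⟨fun h => h.2, fun h => ⟨Finset.mem_univ _, h⟩⟩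

/-- tuples with values in `M` satisfying `Q` -/
def TQ {V : Type} [Fintype V] (M : Finset V) (n : ℕ) (Q : (Fin n → V) → Prop) : Finset (Fin n → V) :=
  Finset.univ.filter fun g => (∀ k, g k ∈ M) ∧ Q g

theorem TQ_succ {V : Type} [Fintype V] (M : Finset V) (n : ℕ) (Q : (Fin (n + 1) → V) → Prop) :
    (TQ M (n + 1) Q).card = ∑ w ∈ M, (TQ M n fun g => Q (Fin.cons w g)).card := by
  have h1 : (TQ M (n + 1) Q).card =
      ∑ w ∈ M, ((TQ M (n + 1) Q).filter fun a => a 0 = w).card := by
    apply Finset.card_eq_sum_card_fiberwise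
    intro a ha
    have := (Finset.mem_filter.1 ha).2.1 0
    exact this
  rw [h1]
  apply Finset.sum_congr rfl
  intro w hw
  symm
  apply Finset.card_bij (fun g _ => (Fin.cons w g : Fin (n + 1) → V))
  · intro g hg
    have hg' := (Finset.mem_filter.1 hg).2
    refine Finset.mem_filter.2 ⟨Finset.mem_filter.2 ⟨Finset.mem_univ _, ?_, hg'.2⟩, by simp⟩
    intro k
    induction k using Fin.cases with
    | zero => simpa using hw
    | succ k => simpa using hg'.1 k
  · intro g _ g' _ h
    exact (Fin.cons_injective2 h).2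
  · intro a ha
    have ha' := Finset.mem_filter.1 ha
    have ha'' := (Finset.mem_filter.1 ha'.1).2
    have he : (Fin.cons w (fun k => a k.succ) : Fin (n + 1) → V) = a := by
      rw [← ha'.2]
      exact Fin.cons_self_tail a
    refine ⟨fun k => a k.succ, Finset.mem_filter.2 ⟨Finset.mem_univ _, fun k => ha''.1 _, ?_⟩, he⟩
    show Q (Fin.cons w (fun k => a k.succ))
    rw [he]
    exact ha''.2

/-- the condition of the connector -/
def Q2 {V : Type} [Fintype V] (A : V → V → Prop) (Ch n : ℕ) (w w' : V) (g : Fin n → V) : Prop :=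
  Ch ≤ (Finset.univ.filter fun v => A v w ∧ A v w' ∧ ∀ k, A v (g k)).card

/-- the condition of the child -/
def Q1 {V : Type} [Fintype V] (A : V → V → Prop) (Ch n : ℕ) (w : V) (g : Fin n → V) : Prop :=
  Ch ≤ (Finset.univ.filter fun v => A v w ∧ ∀ k, A v (g k)).card

theorem Q1_cons {V : Type} [Fintype V] (A : V → V → Prop) (Ch n : ℕ) (w w' : V) (g : Fin n → V) :
    Q1 A Ch (n + 1) w (Fin.cons w' g) ↔ Q2 A Ch n w w' g := by
  unfold Q1 Q2
  have : (Finset.univ.filter fun v => A v w ∧ ∀ k, A v ((Fin.cons w' g : Fin (n + 1) → V) k)) =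
      (Finset.univ.filter fun v => A v w ∧ A v w' ∧ ∀ k, A v (g k)) := by
    apply Finset.filter_congr
    intro v _
    rw [Fin.forall_fin_succ]
    simp only [Fin.cons_zero, Fin.cons_succ]
  rw [this]

theorem cn_cons {V : Type} [Fintype V] (A : V → V → Prop) (Ch n : ℕ) (w : V) (g : Fin n → V) :
    Ch ≤ cn A (Fin.cons w g : Fin (n + 1) → V) ↔ Q1 A Ch n w g := by
  have : cn A (Fin.cons w g : Fin (n + 1) → V) =
      (Finset.univ.filter fun v => A v w ∧ ∀ k, A v (g k)).card := by
    unfold cn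
    apply congrArg Finset.card
    apply Finset.ext
    intro v
    refine mem_filt.trans (Iff.trans ?_ mem_filt.symm)
    rw [Fin.forall_fin_succ]
    simp only [Fin.cons_zero, Fin.cons_succ]
  rw [this]
  rfl

/-- number of the connector tuples -/
def N2 {V : Type} [Fintype V] (A : V → V → Prop) (Ch n : ℕ) (M : Finset V) (w w' : V) : ℕ :=
  (TQ M n (Q2 A Ch n w w')).card

theorem N1_eq {V : Type} [Fintype V] (A : V → V → Prop) (Ch n : ℕ) (M : Finset V) (w : V) :
    (TQ M (n + 1) (Q1 A Ch (n + 1) w)).card = ∑ w' ∈ M, N2 A Ch n M w w' := by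
  rw [TQ_succ]
  apply Finset.sum_congr rfl
  intro w' _
  unfold N2
  have : (fun g => Q1 A Ch (n + 1) w (Fin.cons w' g)) = Q2 A Ch n w w' := by
    funext g
    exact propext (Q1_cons A Ch n w w' g)
  rw [this]

theorem N0_eq {V : Type} [Fintype V] (A : V → V → Prop) (Ch n : ℕ) (M : Finset V) :
    (TQ M (n + 2) (fun a => Ch ≤ cn A a)).card = ∑ w ∈ M, ∑ w' ∈ M, N2 A Ch n M w w' := by
  rw [TQ_succ]
  apply Finset.sum_congr rfl
  intro w _
  rw [← N1_eq]
  have : (fun g : Fin (n + 1) → V => Ch ≤ cn A (Fin.cons w g : Fin (n + 2) → V)) = Q1 A Ch (n + 1) w := by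
    funext g
    exact propext (cn_cons A Ch (n + 1) w g)
  rw [this]

theorem N2_symm {V : Type} [Fintype V] (A : V → V → Prop) (Ch n : ℕ) (M : Finset V) (w w' : V) :
    N2 A Ch n M w w' = N2 A Ch n M w' w := by
  unfold N2
  have : Q2 A Ch n w w' = Q2 A Ch n w' w := by
    funext g
    unfold Q2
    have : (Finset.univ.filter fun v => A v w ∧ A v w' ∧ ∀ k, A v (g k)) =
        (Finset.univ.filter fun v => A v w' ∧ A v w ∧ ∀ k, A v (g k)) := by
      apply Finset.filter_congr
      intro v _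
      tauto
    rw [this]
  rw [this]

theorem N2_le {V : Type} [Fintype V] (A : V → V → Prop) (Ch n : ℕ) (M : Finset V) (w w' : V) :
    N2 A Ch n M w w' ≤ M.card ^ n := by
  unfold N2 TQ
  calc _ ≤ (Fintype.piFinset fun _ : Fin n => M).card := by
        apply Finset.card_le_card
        intro g hg
        rw [Fintype.mem_piFinset]
        exact (Finset.mem_filter.1 hg).2.1
    _ = M.card ^ n := by simp

/-- tuples indexed by a sigma type -/
theorem card_sig {V ι : Type} [Fintype V] [Fintype ι] (ro : ι → ℕ)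
    (P : ∀ i, Finset (Fin (ro i) → V)) :
    (Finset.univ.filter fun y : (Σ i : ι, Fin (ro i)) → V => ∀ i, (fun k => y ⟨i, k⟩) ∈ P i).card =
      ∏ i, (P i).card := by
  rw [← Fintype.card_piFinset]
  apply Finset.card_bij (fun y _ => fun i k => y ⟨i, k⟩)
  · intro y hy
    rw [Fintype.mem_piFinset]
    exact (Finset.mem_filter.1 hy).2
  · intro y _ y' _ h
    funext ⟨i, k⟩
    exact congrFun (congrFun h i) k
  · intro g hg
    rw [Fintype.mem_piFinset] at hg
    exact ⟨fun a => g a.1 a.2, Finset.mem_filter.2 ⟨Finset.mem_univ _, fun i => hg i⟩, rfl⟩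

/-- the slots for given hubs -/
def PP {V : Type} [Fintype V] (A B : V → V → Prop) (s h : ℕ) (pj : Fin (h + 1) → ℕ) (Ch : ℕ)
    (M Y : Finset V) (x : Fin (h + 1) → V) : ∀ i : CI h pj, Finset (Fin ((cat s h pj).ro i) → V)
  | .inl i => Fintype.piFinset fun _ : Fin (s - 2) => Y.filter fun v => B (x i) v
  | .inr (.inl j) => TQ M (s - 2) (Q2 A Ch (s - 2) (x j.castSucc) (x j.succ))
  | .inr (.inr c) => TQ M (s - 1) (Q1 A Ch (s - 1) (x c.1))

theorem SK_fib {V : Type} [Fintype V] (A B : V → V → Prop) (s h : ℕ) (pj : Fin (h + 1) → ℕ) (Ch : ℕ)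
    (M Y : Finset V) (x : Fin (h + 1) → V) (hx : ∀ i, x i ∈ M) :
    ∏ i, (PP A B s h pj Ch M Y x i).card ≤
      ((SKs A B s h pj Ch M Y).filter fun f => f.1 = x).card := by
  rw [← card_sig]
  apply Finset.card_le_card_of_injOn (fun y => (x, y))
  · intro y hy
    have hy' := (Finset.mem_filter.1 (Finset.mem_coe.1 hy)).2
    rw [Finset.mem_coe]
    refine Finset.mem_filter.2 ⟨Finset.mem_filter.2 ⟨Finset.mem_univ _, hx, ?_, ?_, ?_⟩, rfl⟩
    · intro i k
      have h1 := hy' (.inl i)
      have h2 := Fintype.mem_piFinset.1 h1 k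
      exact Finset.mem_filter.1 h2
    · intro u k
      rcases u with j | c
      · have h1 := hy' (.inr (.inl j))
        exact (Finset.mem_filter.1 h1).2.1 k
      · have h1 := hy' (.inr (.inr c))
        exact (Finset.mem_filter.1 h1).2.1 k
    · intro u
      rcases u with j | c
      · have h1 := hy' (.inr (.inl j))
        exact (Finset.mem_filter.1 h1).2.2
      · have h1 := hy' (.inr (.inr c))
        exact (Finset.mem_filter.1 h1).2.2
  · intro y _ y' _ hyy
    exact (Prod.ext_iff.1 hyy).2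

theorem SK (hWP : WP_stmt) : SK_stmt := by
  intro s h pj ε hs hε
  refine ⟨(ε / 4) ^ (h + 1 + ∑ j, pj j), by positivity, ?_⟩
  intro V _ A B Ch M Y D₁ hM hheavy hD
  obtain ⟨t, rfl⟩ : ∃ t, s = t + 2 := ⟨s - 2, by omega⟩
  have hmpos : (0 : ℝ) < (M.card : ℝ) := by exact_mod_cast hM.card_pos
  set m : ℝ := (M.card : ℝ) with hm
  have hcN : Fintype.card {x // x ∈ M} = M.card := Fintype.card_coe M
  set β : {x // x ∈ M} → {x // x ∈ M} → ℝ := fun w w' => (N2 A Ch t M w.1 w'.1 : ℝ) / m ^ t with hβ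
  have hsum : ∀ w : V, ∑ w' : {x // x ∈ M}, (N2 A Ch t M w w'.1 : ℝ) = ∑ w' ∈ M, (N2 A Ch t M w w' : ℝ) := by
    intro w
    exact Finset.sum_coe_sort M (fun w' => (N2 A Ch t M w w' : ℝ))
  have hW := hWP {x // x ∈ M} β ε h pj
    (by
      intro w w'
      simp only [hβ]
      rw [N2_symm])
    (by
      intro w w'
      simp only [hβ]
      positivity)
    (by
      intro w w'
      simp only [hβ]
      rw [div_le_one (by positivity)]
      have := N2_le A Ch t M w.1 w'.1
      rw [hm]
      exact_mod_cast this)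
    hε (by rw [hcN]; exact hM.card_pos)
    (by
      have h1 : ∑ w : {x // x ∈ M}, ∑ w' : {x // x ∈ M}, β w w' =
          ((TQ M (t + 2) (fun a => Ch ≤ cn A a)).card : ℝ) / m ^ t := by
        rw [N0_eq]
        push_cast
        rw [Finset.sum_div]
        rw [← Finset.sum_coe_sort M (fun w => (∑ w' ∈ M, (N2 A Ch t M w w' : ℝ)) / m ^ t)]
        apply Finset.sum_congr rfl
        intro w _
        rw [← hsum, Finset.sum_div]
      rw [h1, hcN, le_div_iff₀ (by positivity)]
      have h2 : ε * (M.card : ℝ) ^ 2 * m ^ t = ε * (M.card : ℝ) ^ (t + 2) := by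
        rw [hm, pow_add]
        ring
      rw [h2]
      have h3 : (TQ M (t + 2) (fun a => Ch ≤ cn A a)).card =
          (Finset.univ.filter fun a : Fin (t + 2) → V => (∀ k, a k ∈ M) ∧ Ch ≤ cn A a).card := by
        unfold TQ
        apply congrArg Finset.card
        apply Finset.ext
        intro a
        exact (mem_filt (p := fun a : Fin (t + 2) → V => (∀ k, a k ∈ M) ∧ Ch ≤ cn A a)).trans
          (mem_filt (p := fun a : Fin (t + 2) → V => (∀ k, a k ∈ M) ∧ Ch ≤ cn A a)).symm
      rw [h3]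
      exact hheavy)
  rw [hcN] at hW
  -- lower bound of the number of skeletons
  have hlow : ∑ x : Fin (h + 1) → {x // x ∈ M},
      (∏ i, (PP A B (t + 2) h pj Ch M Y (fun i => (x i).1) i).card) ≤ (SKs A B (t + 2) h pj Ch M Y).card := by
    have h1 : (SKs A B (t + 2) h pj Ch M Y).card =
        ∑ xh : Fin (h + 1) → V, ((SKs A B (t + 2) h pj Ch M Y).filter fun f => f.1 = xh).card := by
      apply Finset.card_eq_sum_card_fiberwise
      intro f _
      exact Finset.mem_coe.2 (Finset.mem_univ _)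
    rw [h1]
    calc _ ≤ ∑ x : Fin (h + 1) → {x // x ∈ M},
          ((SKs A B (t + 2) h pj Ch M Y).filter fun f => f.1 = fun i => (x i).1).card := by
          apply Finset.sum_le_sum
          intro x _
          exact SK_fib A B (t + 2) h pj Ch M Y _ (fun i => (x i).2)
      _ = ∑ xh ∈ (Finset.univ.image fun x : Fin (h + 1) → {x // x ∈ M} => fun i => (x i).1),
          ((SKs A B (t + 2) h pj Ch M Y).filter fun f => f.1 = xh).card := by
          rw [Finset.sum_image]
          intro x _ x' _ hxx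
          funext i
          exact Subtype.ext (congrFun hxx i)
      _ ≤ _ := by
          apply Finset.sum_le_sum_of_subset
          exact Finset.subset_univ _
  -- value of the products
  have hprod : ∀ x : Fin (h + 1) → {x // x ∈ M},
      ((∏ i, (PP A B (t + 2) h pj Ch M Y (fun i => (x i).1) i).card : ℕ) : ℝ) =
        (D₁ : ℝ) ^ ((h + 1) * t) * m ^ (nB (t + 2) h pj) *
        ((∏ j : Fin h, β (x j.castSucc) (x j.succ)) * ∏ j, ((∑ w', β (x j) w') / (M.card : ℝ)) ^ pj j) := by
    intro x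
    rw [Fintype.prod_sum_type, Fintype.prod_sum_type]
    have e1 : ∏ i : Fin (h + 1), (PP A B (t + 2) h pj Ch M Y (fun i => (x i).1) (.inl i)).card =
        D₁ ^ ((h + 1) * t) := by
      have : ∀ i : Fin (h + 1), (PP A B (t + 2) h pj Ch M Y (fun i => (x i).1) (.inl i)).card = D₁ ^ t := by
        intro i
        have h1 := hD (x i).1 (x i).2
        unfold degY at h1
        show (Fintype.piFinset fun _ : Fin (t + 2 - 2) => Y.filter fun v => B (x i).1 v).card = D₁ ^ t
        rw [Fintype.card_piFinset]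
        simp [h1]
      rw [Finset.prod_congr rfl (fun i _ => this i)]
      rw [Finset.prod_const, Finset.card_univ, Fintype.card_fin, ← pow_mul, mul_comm t (h + 1)]
    have e2 : ∀ j : Fin h, ((PP A B (t + 2) h pj Ch M Y (fun i => (x i).1) (.inr (.inl j))).card : ℝ) =
        m ^ t * β (x j.castSucc) (x j.succ) := by
      intro j
      simp only [hβ]
      rw [mul_div_cancel₀ _ (by positivity)]
      rfl
    have e3 : ∀ c : (Σ j : Fin (h + 1), Fin (pj j)),
        ((PP A B (t + 2) h pj Ch M Y (fun i => (x i).1) (.inr (.inr c))).card : ℝ) =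
        m ^ (t + 1) * ((∑ w', β (x c.1) w') / (M.card : ℝ)) := by
      intro c
      have h1 : (PP A B (t + 2) h pj Ch M Y (fun i => (x i).1) (.inr (.inr c))).card =
          ∑ w' ∈ M, N2 A Ch t M (x c.1).1 w' := N1_eq A Ch t M (x c.1).1
      rw [h1]
      push_cast
      rw [← hsum]
      simp only [hβ]
      rw [← Finset.sum_div, ← hm, pow_succ]
      field_simp
    push_cast
    have e1' : ∏ i : Fin (h + 1), ((PP A B (t + 2) h pj Ch M Y (fun i => (x i).1) (.inl i)).card : ℝ) =
        (D₁ : ℝ) ^ ((h + 1) * t) := by exact_mod_cast e1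
    rw [e1', Finset.prod_congr rfl (fun j _ => e2 j), Finset.prod_congr rfl (fun c _ => e3 c)]
    rw [Finset.prod_mul_distrib, Finset.prod_mul_distrib, Finset.prod_const, Finset.prod_const]
    have e4 : ∏ c : (Σ j : Fin (h + 1), Fin (pj j)), ((∑ w', β (x c.1) w') / (M.card : ℝ)) =
        ∏ j, ((∑ w', β (x j) w') / (M.card : ℝ)) ^ pj j := by
      rw [Fintype.prod_sigma]
      apply Finset.prod_congr rfl
      intro j _
      show ∏ _y : Fin (pj j), ((∑ w', β (x j) w') / (M.card : ℝ)) = _
      rw [Finset.prod_const, Finset.card_univ, Fintype.card_fin]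
    rw [e4]
    have e5 : m ^ (nB (t + 2) h pj) = (m ^ t) ^ (Finset.univ : Finset (Fin h)).card *
        (m ^ (t + 1)) ^ (Finset.univ : Finset (Σ j : Fin (h + 1), Fin (pj j))).card := by
      rw [← pow_mul, ← pow_mul, ← pow_add]
      congr 1
      unfold nB
      simp only [Finset.card_univ, Fintype.card_fin, Fintype.card_sigma]
      have : t + 2 - 2 = t := rfl
      have h2 : t + 2 - 1 = t + 1 := rfl
      rw [this, h2]
      ring
    rw [e5]
    ring
  have hfin : ((∑ x : Fin (h + 1) → {x // x ∈ M},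
      (∏ i, (PP A B (t + 2) h pj Ch M Y (fun i => (x i).1) i).card) : ℕ) : ℝ) =
      (D₁ : ℝ) ^ ((h + 1) * t) * m ^ (nB (t + 2) h pj) *
      ∑ x : Fin (h + 1) → {x // x ∈ M}, ((∏ j : Fin h, β (x j.castSucc) (x j.succ)) *
        ∏ j, ((∑ w', β (x j) w') / (M.card : ℝ)) ^ pj j) := by
    rw [Nat.cast_sum, Finset.mul_sum]
    exact Finset.sum_congr rfl fun x _ => hprod x
  have hlow' : ((∑ x : Fin (h + 1) → {x // x ∈ M},
      (∏ i, (PP A B (t + 2) h pj Ch M Y (fun i => (x i).1) i).card) : ℕ) : ℝ) ≤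
      ((SKs A B (t + 2) h pj Ch M Y).card : ℝ) := by exact_mod_cast hlow
  refine le_trans ?_ hlow'
  rw [hfin]
  have h3 : (t + 2 - 2 : ℕ) = t := rfl
  rw [h3]
  calc (ε / 4) ^ (h + 1 + ∑ j, pj j) * m ^ (h + 1 + nB (t + 2) h pj) * (D₁ : ℝ) ^ ((h + 1) * t)
      = (D₁ : ℝ) ^ ((h + 1) * t) * m ^ (nB (t + 2) h pj) *
        ((ε / 4) ^ (h + 1 + ∑ j, pj j) * m ^ (h + 1)) := by
        rw [pow_add m (h + 1)]
        ring
    _ ≤ _ := by
        apply mul_le_mul_of_nonneg_left hW
        positivity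

end

end Pool.Agent.helper38.IV
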